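import Mathlib
import Pool.Agent.Q262.FR.Metric

/-!
# Lehmer's problem for finite-rank perturbations: rigidity

Let `r` and `N` be given.  Let `W` and `A` be complex matrices of any size `n`, for example integer
matrices, whose characteristic polynomials `Q` and `P` have integer coefficients.  Choose any
Hermitian metric `‖S x‖` on `ℂ ^ n` (the matrix `S` may be arbitrarily badly conditioned), and let
`A - W` have rank at most `r` and norm at most `N` in this metric.  Let `W` be, in this metric, an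
orthogonal direct sum of a contraction and of an operator that does not decrease norms.  Then
`M(P) ≥ μ`, or `M(Q) ≥ μ`, or `P` and `Q` coincide up to factors of Mahler measure one (so that
`M(P) = M(Q)`), with `μ > 1` depending on `r` and `N` only.  There is no condition on `A` besides the
one on `A - W`.

Method.  Write `A - W = ∑ b_j ⟨c_j, ·⟩` with `r` terms.  Then `P / Q = det (1 - X)` where `X` is the
`r × r` matrix of the functions `⟨c_i, (z - W)⁻¹ b_j⟩`.  The integrals over the unit circle of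
`log (1 + |⟨c_i, (z - W)⁻¹ b_j⟩|)` are bounded in terms of `N` (starting library), so the
coprime parts of `P` and `Q` form a pair of bounded height, and for such pairs Lehmer's inequality
is known (starting library).
-/

set_option autoImplicit false

namespace Pool.Agent.Results.MP_dc0c68_nt.AdaptedPerturbations

open Polynomial

noncomputable section

/-- The sum of the squares of the absolute values of the coordinates. -/
def sqNorm {n : ℕ} (x : Fin n → ℂ) : ℝ := ∑ i, ‖x i‖ ^ 2

/-- The Mahler measure of an integer polynomial. -/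
def mahler (P : ℤ[X]) : ℝ := (P.map (Int.castRingHom ℂ)).mahlerMeasure

/-- There is an orthogonal projection `E` commuting with `W` such that `W` does not increase norms
on the range of `E` and does not decrease norms on its orthogonal complement. -/
def IsAdapted {n : ℕ} (W : Matrix (Fin n) (Fin n) ℂ) : Prop :=
  ∃ E : Matrix (Fin n) (Fin n) ℂ, E.conjTranspose = E ∧ E * E = E ∧ W * E = E * W ∧
    (∀ x, sqNorm ((W * E).mulVec x) ≤ sqNorm (E.mulVec x)) ∧
    (∀ x, sqNorm ((1 - E).mulVec x) ≤ sqNorm ((W * (1 - E)).mulVec x))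

/-- `A - W` has rank at most `r` and norm at most `|N|`. -/
def IsPerturbation (r : ℕ) (N : ℝ) {n : ℕ} (W A : Matrix (Fin n) (Fin n) ℂ) : Prop :=
  (A - W).rank ≤ r ∧ ∀ x, sqNorm ((A - W).mulVec x) ≤ N ^ 2 * sqNorm x

theorem result (r : ℕ) (N : ℝ) : ∃ μ : ℝ, 1 < μ ∧
    ∀ (n : ℕ) (S T W A : Matrix (Fin n) (Fin n) ℂ) (P Q : ℤ[X]), S * T = 1 →
      A.charpoly = P.map (Int.castRingHom ℂ) → W.charpoly = Q.map (Int.castRingHom ℂ) →
      IsPerturbation r N (S * W * T) (S * A * T) → IsAdapted (S * W * T) →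
        μ ≤ mahler P ∨ μ ≤ mahler Q ∨
          ∃ Φ Ψ : ℤ[X], mahler Φ = 1 ∧ mahler Ψ = 1 ∧ P * Φ = Q * Ψ := by
  have hN2 : |N| ^ 2 = N ^ 2 := sq_abs N
  obtain ⟨μ₁, hμ₁, h₁⟩ := Q262.FR.rigid r |N| (abs_nonneg N)
  refine ⟨μ₁, hμ₁, ?_⟩
  rintro n S T W A P Q hST hP hQ ⟨hr, hA⟩ ⟨E, h1, h2, h3, h4, h5⟩
  have hTS : T * S = 1 := mul_eq_one_comm.mp hST
  have hP' : (S * A * T).charpoly = Pool.Agent.H261R2.CM.toC P := by
    rw [Q262.FR.charpoly_conj _ _ _ hTS]
    exact hP
  have hQ' : (S * W * T).charpoly = Pool.Agent.H261R2.CM.toC Q := by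
    rw [Q262.FR.charpoly_conj _ _ _ hTS]
    exact hQ
  have hA' := Q262.FR.norm_le_of (S * A * T - S * W * T) |N| (abs_nonneg N)
    (fun x => by rw [hN2]; exact hA x)
  have hE : Q262.FR.AdC (S * W * T) E := ⟨h1, h2, h3, Pool.Agent.Y820.LB.act_le _ _ h4,
    Pool.Agent.Y820.LB.act_le _ _ h5⟩
  rcases h₁ n (S * W * T) (S * A * T) E P Q hE hA' hr hP' hQ' with
    g | g | ⟨Φ, Ψ, -, -, g1, g2, g3⟩
  · exact Or.inl g
  · exact Or.inr (Or.inl g)
  · exact Or.inr (Or.inr ⟨Φ, Ψ, g1, g2, g3⟩)

end

end Pool.Agent.Results.MP_dc0c68_nt.AdaptedPerturbations
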