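import Mathlib
import Pool.Agent.Q168.LA.Final
import Pool.Agent.TH53.SL5

/-!
# Lehmer's problem for numbers of degree at most three over an abelian field

Let `f` be a nonzero integer polynomial with a complex zero `α`, not zero and not a root of unity,
which has degree at most three over some cyclotomic field (that is, over the maximal abelian
extension of the rational numbers).  Then the Mahler measure of `f` exceeds `1.21`, hence that of
Lehmer's polynomial.

Method.  Let `m = 2, 3` be the degree over the cyclotomic fields, `Y` the set of the conjugates of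
`ξ α`, where the root of unity `ξ` is chosen such that the smallest cyclotomic field `K = ℚ(ζ_N)`
over which `ξ α` has degree `m` is as small as possible.  If the product of `Y` is not a root of
unity, one uses the unit `v = |∏ Y|²` and that `v + 1/v - 2` is a nonzero algebraic integer.
Otherwise the sum of the seventh powers of `Y` is congruent modulo `7` to `σ (∑ Y)` (`σ` a Frobenius
automorphism, if `7 ∤ N`), respectively to `σ (∑ Y ^ 7)` for all `σ` fixing `ζ_N ^ 7` (if
`7 ∣ N`), and similarly for the inverses; one of the two differences does not vanish.  Its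
conjugates are at most `2 m < 7` on the unit circle, and the product formula bounds the Mahler
measure from below.  For `m = 3` one uses moreover that the blocks of conjugates come in pairs
`{C, C⁻¹}` in the reciprocal case and a weak form of Smyth's theorem in the other case.
-/

set_option autoImplicit false

namespace Pool.Agent.Results.MP_dc0c68_nt.CubicOverAbelian

open Polynomial

/-- The Mahler measure of an integer polynomial. -/
noncomputable def M (f : ℤ[X]) : ℝ := (f.map (Int.castRingHom ℂ)).mahlerMeasure

/-- Lehmer's polynomial. -/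
noncomputable def L : ℤ[X] := X ^ 10 + X ^ 9 - X ^ 7 - X ^ 6 - X ^ 5 - X ^ 4 - X ^ 3 + X + 1

/-- `α` is a zero of a nonzero polynomial of degree at most `d` with coefficients in the cyclotomic
field generated by the `N`-th roots of unity, for some `N`. -/
def DegreeOverAbelianLe (d : ℕ) (α : ℂ) : Prop :=
  ∃ N : ℕ, 0 < N ∧ ∃ g : ℂ[X], g ≠ 0 ∧ g.natDegree ≤ d ∧
    (∀ i, g.coeff i ∈ IntermediateField.adjoin ℚ {z : ℂ | z ^ N = 1}) ∧ g.eval α = 0

theorem result (f : ℤ[X]) (hf : f ≠ 0) (α : ℂ) (hα : aeval α f = 0) (h0 : α ≠ 0)
    (hroot : ∀ n : ℕ, 0 < n → α ^ n ≠ 1) (hdeg : DegreeOverAbelianLe 3 α) :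
    1.21 < M f ∧ M L < M f := by
  obtain ⟨N, hN, g, hg0, hg3, hgc, hgα⟩ := hdeg
  have h1 : 1.21 < M f := Pool.Agent.Q168.LA.main hf hα h0 hroot hN hg0 hg3 hgc hgα
  refine ⟨h1, ?_⟩
  have h2 : M L < 1189 / 1000 := Pool.Agent.TH53.SL.lehmer_lt
  norm_num at h1 ⊢
  linarith

end Pool.Agent.Results.MP_dc0c68_nt.CubicOverAbelian
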