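import Mathlib
import Pool.Agent.Q262.FR.Own

/-!
# Lehmer's problem for isometries of indefinite lattices

Let `G` be the Gram matrix of an integral lattice of any rank `n` whose form is nondegenerate with
exactly `r` negative squares, and let `A` be an isometry of the lattice, or more generally an
integer matrix with `(A x, A x) ≤ (x, x)` for all real `x`.  Let `v_1, …, v_r` be lattice vectors
that span a negative definite subspace `V` of dimension `r`, that is a rational point of the
symmetric space of the form.  The theorem gives a number `μ > 1` which depends only on `r`, on a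
bound `Δ` for the determinant of the `(v_i, v_j)` (the square of the covolume) and on a bound for the
displacement of `V`, namely a constant `c` with `(x, A y) ^ 2 ≤ c (x, x) (y, y)` on `V`, such that the
Mahler measure of the characteristic polynomial of `A` is `1` or at least `μ`.  The rank and the
discriminant of the lattice are arbitrary.

For `r = 1` the symmetric space is the hyperbolic space of dimension `n - 1`, the distance `d` of the
points `V` and `A V` is given by `cosh d = (v, A v) / (v, v)`, and the logarithm of the Mahler
measure is the translation length of `A`.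

Method.  On the negative `r`-plane the form is reversed.  Let `m` be the matrix of the `(v_i, A v_j)`,
which is invertible, and let `b_j = A v_j`, `c_i = (v_i, A ·)`.  The operator `W = A - b m⁻¹ c` (a
Potapov-Ginzburg transform of `A`) is a contraction for the resulting positive definite form, and
`A - W` has rank at most `r` and norm at most `2 √c`.  By Schur's formula `det (m) χ_W` is the
determinant of a block matrix over `ℤ[X]`, so it has integer coefficients, and `det m` is
bounded.  The quotient `χ_A / χ_W` is an `r × r` determinant of matrix elements of the resolvent of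
`W` with bounded logarithmic integrals (starting library), so the coprime parts of `χ_A` and
`det (m) χ_W` form a pair of bounded height, and for such pairs Lehmer's inequality is known (starting
library).
-/

set_option autoImplicit false

namespace Pool.Agent.Results.MP_dc0c68_nt.IndefiniteLattices

open Polynomial

noncomputable section

/-- The symmetric bilinear form with the integral Gram matrix `G`. -/
def form {n : ℕ} (G : Matrix (Fin n) (Fin n) ℤ) (x y : Fin n → ℝ) : ℝ :=
  ∑ i, ∑ j, (G i j : ℝ) * x i * y j

/-- The linear combination of the lattice vectors `v k` with the real coefficients `c k`. -/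
def comb {n r : ℕ} (v : Fin r → Fin n → ℤ) (c : Fin r → ℝ) : Fin n → ℝ :=
  fun i => ∑ k, c k * (v k i : ℝ)

/-- The image of the real vector `x` under the integer matrix `A`. -/
def image {n : ℕ} (A : Matrix (Fin n) (Fin n) ℤ) (x : Fin n → ℝ) : Fin n → ℝ :=
  fun i => ∑ j, (A i j : ℝ) * x j

/-- The Gram matrix of the lattice vectors `v k`. -/
def gram {n r : ℕ} (G : Matrix (Fin n) (Fin n) ℤ) (v : Fin r → Fin n → ℤ) :
    Matrix (Fin r) (Fin r) ℤ :=
  Matrix.of fun i j => ∑ a, ∑ b, G a b * v i a * v j b

/-- The form is symmetric, negative definite on the span of the lattice vectors `v k` (which are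
linearly independent) and positive definite on its orthogonal complement. In particular it is
nondegenerate with exactly `r` negative squares. -/
structure IsNegativeBasis {n r : ℕ} (G : Matrix (Fin n) (Fin n) ℤ) (v : Fin r → Fin n → ℤ) :
    Prop where
  symmetric : G.transpose = G
  negative : ∀ c : Fin r → ℝ, c ≠ 0 → form G (comb v c) (comb v c) < 0
  positive : ∀ x : Fin n → ℝ, x ≠ 0 → (∀ c, form G (comb v c) x = 0) → 0 < form G x x

/-- The integer matrix `A` does not increase the form; for instance it is an isometry. -/
def IsNonincreasing {n : ℕ} (G A : Matrix (Fin n) (Fin n) ℤ) : Prop :=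
  ∀ x : Fin n → ℝ, form G (image A x) (image A x) ≤ form G x x

/-- The matrix `A` moves the span of the `v k` by a bounded amount. -/
def HasDisplacement (c : ℝ) {n r : ℕ} (G A : Matrix (Fin n) (Fin n) ℤ) (v : Fin r → Fin n → ℤ) :
    Prop :=
  ∀ s t : Fin r → ℝ, form G (comb v s) (image A (comb v t)) ^ 2 ≤
    c * (form G (comb v s) (comb v s) * form G (comb v t) (comb v t))

/-- The Mahler measure of an integer polynomial. -/
def mahler (P : ℤ[X]) : ℝ := (P.map (Int.castRingHom ℂ)).mahlerMeasure

theorem result (r : ℕ) (c Δ : ℝ) : ∃ μ : ℝ, 1 < μ ∧
    ∀ (n : ℕ) (G A : Matrix (Fin n) (Fin n) ℤ) (v : Fin r → Fin n → ℤ),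
      IsNegativeBasis G v → IsNonincreasing G A → |((gram G v).det : ℝ)| ≤ Δ →
      HasDisplacement c G A v → mahler A.charpoly = 1 ∨ μ ≤ mahler A.charpoly := by
  obtain ⟨μ, hμ, h⟩ := Q262.FR.gap_of r c Δ
  exact ⟨μ, hμ, fun n G A v h1 h2 h3 h4 =>
    h n G A v h1.symmetric h1.negative h1.positive h2 h3 h4⟩

end

end Pool.Agent.Results.MP_dc0c68_nt.IndefiniteLattices
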