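import Mathlib
import Pool.Agent.Q262.FR.Metric

/-!
# Lehmer's problem for finite-rank perturbations of contractions

Let `r` and `N` be given.  Let `W` and `A` be complex matrices of any size `n`, for example integer
matrices, whose characteristic polynomials have integer coefficients.  Choose any Hermitian metric
`‖S x‖` on `ℂ ^ n` (the matrix `S` may be arbitrarily badly conditioned), let `W` be a contraction in
this metric, and let `A - W` have rank at most `r` and norm at most `N` in this metric.  Let `P` be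
the characteristic polynomial of `A`.  Then up to factors of Mahler measure one `P` is a polynomial
`R` whose length is bounded in terms of `r` and `N`, and `M(P) = 1` or `M(P) ≥ μ` with `μ > 1`
depending on `r` and `N` only.  There is no condition on `A` besides the one on `A - W`.

Method.  Write `A - W = ∑ b_j ⟨c_j, ·⟩` with `r` terms.  Then `P / Q = det (1 - X)` where `X` is the
`r × r` matrix of the functions `⟨c_i, (z - W)⁻¹ b_j⟩`.  The integrals over the unit circle of
`log (1 + |⟨c_i, (z - W)⁻¹ b_j⟩|)` are bounded in terms of `N` (starting library), so the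
coprime parts of `P` and `Q` form a pair of bounded height, and for such pairs Lehmer's inequality
and compactness are known (starting library).
-/

set_option autoImplicit false

namespace Pool.Agent.Results.MP_dc0c68_nt.PerturbedContractions

open Polynomial

noncomputable section

/-- The sum of the squares of the absolute values of the coordinates. -/
def sqNorm {n : ℕ} (x : Fin n → ℂ) : ℝ := ∑ i, ‖x i‖ ^ 2

/-- The Mahler measure of an integer polynomial. -/
def mahler (P : ℤ[X]) : ℝ := (P.map (Int.castRingHom ℂ)).mahlerMeasure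

/-- The length: the sum of the absolute values of the coefficients. -/
def length (P : ℤ[X]) : ℤ := ∑ i ∈ P.support, |P.coeff i|

/-- The complex matrix `W` does not increase norms. -/
def IsContraction {n : ℕ} (W : Matrix (Fin n) (Fin n) ℂ) : Prop :=
  ∀ x, sqNorm (W.mulVec x) ≤ sqNorm x

/-- `A - W` has rank at most `r` and norm at most `|N|`. -/
def IsPerturbation (r : ℕ) (N : ℝ) {n : ℕ} (W A : Matrix (Fin n) (Fin n) ℂ) : Prop :=
  (A - W).rank ≤ r ∧ ∀ x, sqNorm ((A - W).mulVec x) ≤ N ^ 2 * sqNorm x

theorem result (r : ℕ) (N : ℝ) : ∃ (μ : ℝ) (L : ℕ), 1 < μ ∧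
    ∀ (n : ℕ) (S T W A : Matrix (Fin n) (Fin n) ℂ) (P Q : ℤ[X]), S * T = 1 →
      A.charpoly = P.map (Int.castRingHom ℂ) → W.charpoly = Q.map (Int.castRingHom ℂ) →
      IsPerturbation r N (S * W * T) (S * A * T) → IsContraction (S * W * T) →
        (mahler P = 1 ∨ μ ≤ mahler P) ∧
        ∃ Φ Ψ R : ℤ[X], mahler Φ = 1 ∧ mahler Ψ = 1 ∧ P * Φ = R * Ψ ∧ length R ≤ L := by
  have hN2 : |N| ^ 2 = N ^ 2 := sq_abs N
  obtain ⟨μ₂, L, hμ₂, h₂⟩ := Q262.FR.main r |N| (abs_nonneg N)
  refine ⟨μ₂, L, hμ₂, ?_⟩
  rintro n S T W A P Q hST hP hQ ⟨hr, hA⟩ hW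
  have hTS : T * S = 1 := mul_eq_one_comm.mp hST
  have hP' : (S * A * T).charpoly = Pool.Agent.H261R2.CM.toC P := by
    rw [Q262.FR.charpoly_conj _ _ _ hTS]
    exact hP
  have hQ' : (S * W * T).charpoly = Pool.Agent.H261R2.CM.toC Q := by
    rw [Q262.FR.charpoly_conj _ _ _ hTS]
    exact hQ
  have hA' := Q262.FR.norm_le_of (S * A * T - S * W * T) |N| (abs_nonneg N)
    (fun x => by rw [hN2]; exact hA x)
  obtain ⟨g, Φ, Ψ, R, -, -, -, g1, g2, g3, g4⟩ := h₂ n (S * W * T) (S * A * T) P Q
    (Q262.FR.ctr_of _ hW) hA' hr hP' hQ'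
  exact ⟨g, Φ, Ψ, R, g1, g2, g3, g4⟩

end

end Pool.Agent.Results.MP_dc0c68_nt.PerturbedContractions
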